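import Mathlib

open MeasureTheory Metric Set Filter Topology
open scoped ContDiff

namespace Pool.Agent.Results.MP_3df006_an.CircleMass

/-! Everything is in dimension `n = 1`, so that plurisubharmonic functions are subharmonic functions
on open subsets of `ℂ` and `dd^c u = 2 i ∂∂̄ u = Δu dx dy`. -/

/-- Subharmonic functions on an open set `Ω` of `ℂ`, with values in `[-∞, ∞)`: upper semicontinuous,
and for every closed disc in `Ω` the value at the centre is at most the mean over the boundary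
circle. The mean of an upper semicontinuous function is the infimum of the means of its continuous
majorants, which is how it is expressed here. -/
def SH (Ω : Set ℂ) (u : ℂ → EReal) : Prop :=
  (∀ z ∈ Ω, u z < ⊤) ∧ UpperSemicontinuousOn u Ω ∧
  ∀ (a : ℂ) (r : ℝ), 0 < r → closedBall a r ⊆ Ω →
    ∀ φ : ℂ → ℝ, Continuous φ → (∀ z ∈ sphere a r, u z ≤ ((φ z : ℝ) : EReal)) →
      u a ≤ ((Real.circleAverage φ a r : ℝ) : EReal)

/-- The Lelong class `L`: `u` subharmonic on `ℂ` with `u(z) ≤ log⁺|z| + C`. -/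
def Lelong (u : ℂ → EReal) : Prop :=
  SH univ u ∧ ∃ C : ℝ, ∀ z, u z ≤ ((Real.posLog ‖z‖ + C : ℝ) : EReal)

/-- Polar (pluripolar) sets. -/
def Polar (E : Set ℂ) : Prop :=
  ∃ u : ℂ → EReal, SH univ u ∧ (∃ z, u z ≠ ⊥) ∧ ∀ z ∈ E, u z = ⊥

/-- `Ω` is a bounded hyperconvex domain. -/
def BoundedHyperconvex (Ω : Set ℂ) : Prop :=
  IsOpen Ω ∧ IsConnected Ω ∧ Bornology.IsBounded Ω ∧
  ∃ ρ : ℂ → ℝ, ContinuousOn ρ Ω ∧ SH Ω (fun z => ((ρ z : ℝ) : EReal)) ∧ (∀ z ∈ Ω, ρ z < 0) ∧
    ∀ c : ℝ, c < 0 → ∃ K : Set ℂ, IsCompact K ∧ K ⊆ Ω ∧ ∀ z ∈ Ω, ρ z ≤ c → z ∈ K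

/-- A weight on `K`: lower semicontinuous, nonpositive, and `{Q < 0}` is not pluripolar. -/
def IsWeight (K : Set ℂ) (Q : ℂ → ℝ) : Prop :=
  LowerSemicontinuousOn Q K ∧ (∀ z ∈ K, Q z ≤ 0) ∧ ¬ Polar {z | z ∈ K ∧ Q z < 0}

/-- The weighted global extremal function `V_{K,Q}`. -/
noncomputable def V (K : Set ℂ) (Q : ℂ → ℝ) (z : ℂ) : EReal :=
  sSup {t | ∃ u : ℂ → EReal, Lelong u ∧ (∀ w ∈ K, u w ≤ ((Q w : ℝ) : EReal)) ∧ u z = t}

/-- The weighted relative extremal function `U_{K,Q,Ω}`. -/
noncomputable def U (K : Set ℂ) (Q : ℂ → ℝ) (Ω : Set ℂ) (z : ℂ) : EReal :=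
  sSup {t | ∃ u : ℂ → EReal, SH Ω u ∧ (∀ w ∈ Ω, u w < 0) ∧
    (∀ w ∈ K, u w ≤ ((Q w : ℝ) : EReal)) ∧ u z = t}

/-- The upper semicontinuous regularization `v*` of a function on the open set `Ω`. -/
noncomputable def usc (Ω : Set ℂ) (v : ℂ → EReal) (z : ℂ) : EReal := limsup v (𝓝[Ω] z)

/-- The Laplacian. -/
noncomputable def lap (φ : ℂ → ℝ) (z : ℂ) : ℝ :=
  lineDeriv ℝ (fun w => lineDeriv ℝ φ w 1) z 1 +
    lineDeriv ℝ (fun w => lineDeriv ℝ φ w Complex.I) z Complex.I

/-- `μ` is the measure `dd^c v = Δ v` on `Ω`, in the sense of distributions: `μ` is finite on compact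
subsets of `Ω`, gives no mass to the complement of `Ω`, and `∫ v Δφ = ∫ φ dμ` for every test
function `φ` on `Ω`. -/
def IsDdc (Ω : Set ℂ) (v : ℂ → EReal) (μ : Measure ℂ) : Prop :=
  (∀ K : Set ℂ, IsCompact K → K ⊆ Ω → μ K < ⊤) ∧ μ Ωᶜ = 0 ∧
  ∀ φ : ℂ → ℝ, ContDiff ℝ ∞ φ → HasCompactSupport φ → tsupport φ ⊆ Ω →
    ∫ z, (v z).toReal * lap φ z = ∫ z, φ z ∂μ

/-! ### Circle means -/

lemma avg_log (a : ℂ) (ha : a ≠ 0) {r : ℝ} (hr : 0 < r) :
    Real.log ‖a‖ ≤ Real.circleAverage (fun z => Real.log ‖z‖) a r := by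
  have h := circleAverage_log_norm_sub_const_eq_log_radius_add_posLog (a := 0) (c := a) hr.ne'
  simp only [sub_zero] at h
  rw [h]
  have h1 : Real.log ‖a‖ = Real.log r + Real.log (r⁻¹ * ‖a‖) := by
    rw [← Real.log_mul hr.ne' (by positivity), mul_inv_cancel_left₀ hr.ne']
  rw [h1]
  have : Real.log (r⁻¹ * ‖a‖) ≤ Real.posLog (r⁻¹ * ‖a‖) := by
    unfold Real.posLog
    exact le_max_right _ _
  linarith

lemma avg_log_eq (a : ℂ) {r : ℝ} (hr : 0 < r) (hra : r < ‖a‖) :
    Real.circleAverage (fun z => Real.log ‖z‖) a r = Real.log ‖a‖ := by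
  have h := circleAverage_log_norm_sub_const_eq_log_radius_add_posLog (a := 0) (c := a) hr.ne'
  simp only [sub_zero] at h
  rw [h]
  have ha : 0 < ‖a‖ := hr.trans hra
  have h1 : Real.log ‖a‖ = Real.log r + Real.log (r⁻¹ * ‖a‖) := by
    rw [← Real.log_mul hr.ne' (by positivity), mul_inv_cancel_left₀ hr.ne']
  rw [h1]
  have : Real.log (r⁻¹ * ‖a‖) = Real.posLog (r⁻¹ * ‖a‖) := by
    unfold Real.posLog
    rw [max_eq_right]
    apply Real.log_nonneg
    rw [inv_mul_eq_div, one_le_div hr]
    exact hra.le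
  rw [this]

lemma avg_sq (a : ℂ) (r : ℝ) : Real.circleAverage (fun z => ‖z‖ ^ 2) a r = ‖a‖ ^ 2 + r ^ 2 := by
  rw [Real.circleAverage_def]
  obtain ⟨C, hC⟩ : ∃ C : ℝ, C = ‖a‖ ^ 2 + r ^ 2 := ⟨_, rfl⟩
  rw [← hC]
  have h : ∀ θ : ℝ, ‖circleMap a r θ‖ ^ 2 = C +
      (Real.cos θ * (2 * r * a.re) + Real.sin θ * (2 * r * a.im)) := by
    intro θ
    rw [hC]
    rw [Complex.sq_norm, Complex.sq_norm, Complex.normSq_apply, Complex.normSq_apply]
    have h1 : (circleMap a r θ).re = a.re + r * Real.cos θ := by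
      simp [circleMap, Complex.exp_ofReal_mul_I_re]
    have h2 : (circleMap a r θ).im = a.im + r * Real.sin θ := by
      simp [circleMap, Complex.exp_ofReal_mul_I_im]
    rw [h1, h2]
    have := Real.sin_sq_add_cos_sq θ
    linear_combination r ^ 2 * this
  simp_rw [h]
  rw [intervalIntegral.integral_add (by simp) (by
    apply Continuous.intervalIntegrable; fun_prop),
    intervalIntegral.integral_add (by apply Continuous.intervalIntegrable; fun_prop)
      (by apply Continuous.intervalIntegrable; fun_prop)]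
  rw [intervalIntegral.integral_const, intervalIntegral.integral_mul_const,
    intervalIntegral.integral_mul_const, integral_cos, integral_sin]
  have : Real.pi ≠ 0 := Real.pi_ne_zero
  simp
  field_simp

lemma ci {f : ℂ → ℝ} (hf : Continuous f) (a : ℂ) (r : ℝ) : CircleIntegrable f a r :=
  hf.continuousOn.circleIntegrable'

lemma ci_log (a : ℂ) (r : ℝ) : CircleIntegrable (fun z => Real.log ‖z‖) a r := by
  have := circleIntegrable_log_norm_sub_const (a := 0) (c := a) r
  simpa using this

lemma ci_log_mul (α : ℝ) (a : ℂ) (r : ℝ) :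
    CircleIntegrable (fun z => α * Real.log ‖z‖) a r := by
  have := IntervalIntegrable.const_mul (ci_log a r) α
  exact this

/-- continuous functions touched from below by `α log |z| + β` satisfy the sub-mean inequality -/
lemma submean {u : ℂ → ℝ} (hu : Continuous u) {a : ℂ} (ha : a ≠ 0) {α β : ℝ} (hα : 0 ≤ α)
    (hle : ∀ z, z ≠ 0 → α * Real.log ‖z‖ + β ≤ u z) (heq : u a ≤ α * Real.log ‖a‖ + β)
    {r : ℝ} (hr : 0 < r) : u a ≤ Real.circleAverage u a r := by
  have h1 : Real.circleAverage (fun z => α * Real.log ‖z‖ + β) a r =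
      α * Real.circleAverage (fun z => Real.log ‖z‖) a r + β := by
    rw [Real.circleAverage_fun_add (ci_log_mul α a r) (ci continuous_const a r)]
    have := Real.circleAverage_fun_smul (a := α) (f := fun z : ℂ => Real.log ‖z‖) (c := a) (R := r)
    simp only [smul_eq_mul] at this
    rw [this, Real.circleAverage_const]
  have h2 : Real.circleAverage (fun z => α * Real.log ‖z‖ + β) a r ≤ Real.circleAverage u a r := by
    rw [Real.circleAverage_def, Real.circleAverage_def, smul_eq_mul, smul_eq_mul]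
    refine mul_le_mul_of_nonneg_left ?_ (by positivity)
    refine intervalIntegral.integral_mono_ae (by positivity)
      ((ci_log_mul α a r).add (ci continuous_const a r)) (ci hu a r) ?_
    have h0 : ∀ᵐ θ : ℝ, circleMap a r θ ≠ 0 := by
      have := ((countable_singleton (0 : ℂ)).preimage_circleMap a hr.ne').measure_zero volume
      rw [ae_iff]
      simp only [ne_eq, not_not]
      exact this
    filter_upwards [h0] with θ hθ
    exact hle _ hθ
  have := mul_le_mul_of_nonneg_left (avg_log a ha hr) hα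
  linarith

lemma sh_of_submean {Ω : Set ℂ} {u : ℂ → ℝ} (hu : Continuous u)
    (h : ∀ a r, 0 < r → u a ≤ Real.circleAverage u a r) :
    SH Ω (fun z => ((u z : ℝ) : EReal)) := by
  refine ⟨fun z _ => EReal.coe_lt_top _, ?_, fun a r hr _ φ hφ hle => ?_⟩
  · exact (continuous_coe_real_ereal.comp hu).upperSemicontinuous.upperSemicontinuousOn _
  · rw [EReal.coe_le_coe_iff]
    refine (h a r hr).trans (Real.circleAverage_mono (ci hu a r) (ci hφ a r) fun z hz => ?_)
    rw [abs_of_pos hr] at hz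
    exact EReal.coe_le_coe_iff.mp (hle z hz)

/-! ### The extremal functions -/

/-- `|z|²/2 - 2` in the unit disc, `α log |z| - 3/2` outside. -/
noncomputable def w (α : ℝ) (z : ℂ) : ℝ :=
  (min ‖z‖ 1) ^ 2 / 2 - 2 + α * Real.log (max ‖z‖ 1)

lemma w_in {α : ℝ} {z : ℂ} (h : ‖z‖ ≤ 1) : w α z = ‖z‖ ^ 2 / 2 - 2 := by
  unfold w
  rw [min_eq_left h, max_eq_right h, Real.log_one]
  ring

lemma w_out {α : ℝ} {z : ℂ} (h : 1 ≤ ‖z‖) : w α z = α * Real.log ‖z‖ - 3 / 2 := by
  unfold w
  rw [min_eq_right h, max_eq_left h]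
  ring

lemma w_cont (α : ℝ) : Continuous (w α) := by
  unfold w
  refine Continuous.add (by fun_prop) (continuous_const.mul ?_)
  refine Continuous.log (by fun_prop) fun z => ?_
  have : (1 : ℝ) ≤ max ‖z‖ 1 := le_max_right _ _
  linarith

lemma w_submean {α : ℝ} (hα : 1 ≤ α) (a : ℂ) (r : ℝ) (hr : 0 < r) :
    w α a ≤ Real.circleAverage (w α) a r := by
  by_cases ha : a = 0
  · subst ha
    rw [w_in (by simp)]
    have hmin : ∀ z, -2 ≤ w α z := by
      intro z
      rcases le_total ‖z‖ 1 with h | h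
      · rw [w_in h]; nlinarith [sq_nonneg ‖z‖]
      · rw [w_out h]
        have := Real.log_nonneg h
        nlinarith
    have h1 : Real.circleAverage (fun _ => (-2 : ℝ)) 0 r ≤ Real.circleAverage (w α) 0 r :=
      Real.circleAverage_mono (ci continuous_const 0 r) (ci (w_cont α) 0 r) fun z _ => hmin z
    rw [Real.circleAverage_const] at h1
    simpa using h1
  have ha0 : 0 < ‖a‖ := norm_pos_iff.mpr ha
  have hlogle : ∀ x : ℝ, 0 < x → Real.log x ≤ x - 1 := fun x hx => Real.log_le_sub_one_of_pos hx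
  rcases le_or_gt ‖a‖ 1 with h | h
  · have hs1 : ‖a‖ ^ 2 ≤ 1 := by nlinarith
    refine submean (w_cont α) ha (α := ‖a‖ ^ 2) (β := ‖a‖ ^ 2 / 2 - 2 - ‖a‖ ^ 2 * Real.log ‖a‖)
      (by positivity) (fun z hz => ?_) (by rw [w_in h]; linarith) hr
    have hz0 : 0 < ‖z‖ := norm_pos_iff.mpr hz
    rcases le_total ‖z‖ 1 with h2 | h2
    · rw [w_in h2]
      have h3 := hlogle ((‖z‖ / ‖a‖) ^ 2) (by positivity)
      rw [Real.log_pow, Real.log_div hz0.ne' ha0.ne'] at h3
      have h4 : ‖a‖ ^ 2 * (‖z‖ / ‖a‖) ^ 2 = ‖z‖ ^ 2 := by field_simp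
      have h5 := mul_le_mul_of_nonneg_left h3 (sq_nonneg ‖a‖)
      push_cast at h5
      nlinarith
    · rw [w_out h2]
      have h3 := hlogle ((1 / ‖a‖) ^ 2) (by positivity)
      rw [Real.log_pow, Real.log_div one_ne_zero ha0.ne', Real.log_one] at h3
      have h4 : ‖a‖ ^ 2 * (1 / ‖a‖) ^ 2 = 1 := by field_simp
      have h5 := mul_le_mul_of_nonneg_left h3 (sq_nonneg ‖a‖)
      have h6 := Real.log_nonneg h2
      push_cast at h5
      have h7 : ‖a‖ ^ 2 * Real.log ‖z‖ ≤ α * Real.log ‖z‖ :=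
        mul_le_mul_of_nonneg_right (hs1.trans hα) h6
      nlinarith
  · refine submean (w_cont α) ha (α := α) (β := -(3 / 2)) (by linarith) (fun z hz => ?_)
      (by rw [w_out h.le]; linarith) hr
    have hz0 : 0 < ‖z‖ := norm_pos_iff.mpr hz
    rcases le_total ‖z‖ 1 with h2 | h2
    · rw [w_in h2]
      have h3 := hlogle (‖z‖ ^ 2) (by positivity)
      rw [Real.log_pow] at h3
      push_cast at h3
      have h4 : Real.log ‖z‖ ≤ 0 := Real.log_nonpos hz0.le h2
      nlinarith
    · rw [w_out h2]; linarith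

lemma w_sh {α : ℝ} (hα : 1 ≤ α) (Ω : Set ℂ) : SH Ω (fun z => ((w α z : ℝ) : EReal)) :=
  sh_of_submean (w_cont α) (w_submean hα)

/-! ### The maximum principle on annuli -/

lemma ereal_aux {x : EReal} {k c : ℝ} (h : x + (k : EReal) ≤ ((c : ℝ) : EReal)) :
    x ≤ ((c - k : ℝ) : EReal) := by
  induction x with
  | bot => exact bot_le
  | top => simp at h
  | coe x =>
    rw [← EReal.coe_add, EReal.coe_le_coe_iff] at h
    rw [EReal.coe_le_coe_iff]
    linarith

lemma comparison {Ω : Set ℂ} {u : ℂ → EReal} (hu : SH Ω u) {R : ℝ}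
    (hΩ : ∀ z : ℂ, 1 ≤ ‖z‖ → ‖z‖ ≤ R → z ∈ Ω) (α β : ℝ)
    (h1 : ∀ z : ℂ, ‖z‖ = 1 → u z ≤ ((β : ℝ) : EReal))
    (h2 : ∀ z : ℂ, ‖z‖ = R → u z ≤ ((α * Real.log R + β : ℝ) : EReal)) (z : ℂ) (hz1 : 1 ≤ ‖z‖)
    (hz2 : ‖z‖ ≤ R) : u z ≤ ((α * Real.log ‖z‖ + β : ℝ) : EReal) := by
  -- it is enough to prove the inequality with a small error
  have key : ∀ δ : ℝ, 0 < δ →
      u z ≤ ((α * Real.log ‖z‖ + β + δ * (R ^ 2 - ‖z‖ ^ 2) : ℝ) : EReal) := by
    intro δ hδ
    set k : ℂ → ℝ := fun y => -(α * Real.log (max ‖y‖ 1) + β) + δ * (‖y‖ ^ 2 - R ^ 2) with hk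
    have hkc : Continuous k := by
      refine Continuous.add (Continuous.neg (Continuous.add (continuous_const.mul ?_)
        continuous_const)) (by fun_prop)
      refine Continuous.log (by fun_prop) fun y => ?_
      have : (1 : ℝ) ≤ max ‖y‖ 1 := le_max_right _ _
      linarith
    set A : Set ℂ := {y | 1 ≤ ‖y‖ ∧ ‖y‖ ≤ R} with hA
    have hAc : IsCompact A := by
      refine Metric.isCompact_of_isClosed_isBounded ?_ ?_
      · exact (isClosed_le continuous_const continuous_norm).inter
          (isClosed_le continuous_norm continuous_const)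
      · refine (Metric.isBounded_closedBall (x := (0 : ℂ)) (r := R)).subset fun y hy => ?_
        simpa using hy.2
    have hAne : A.Nonempty := ⟨z, hz1, hz2⟩
    have husc : UpperSemicontinuousOn (fun y => u y + ((k y : ℝ) : EReal)) A := by
      refine UpperSemicontinuousOn.add' (hu.2.1.mono fun y hy => hΩ y hy.1 hy.2)
        ((continuous_coe_real_ereal.comp hkc).upperSemicontinuous.upperSemicontinuousOn _)
        fun y _ => ?_
      exact EReal.continuousAt_add (Or.inr (EReal.coe_ne_bot _)) (Or.inr (EReal.coe_ne_top _))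
    obtain ⟨z0, hz0, hmax⟩ := husc.exists_isMaxOn hAne hAc
    by_cases hpos : u z0 + ((k z0 : ℝ) : EReal) ≤ ((0 : ℝ) : EReal)
    · have h3 := (hmax (show z ∈ A from ⟨hz1, hz2⟩)).trans hpos
      have h4 := ereal_aux h3
      refine h4.trans ?_
      rw [EReal.coe_le_coe_iff]
      simp only [hk]
      rw [max_eq_left hz1]
      linarith
    · exfalso
      push Not at hpos
      have hb1 : ‖z0‖ ≠ 1 := by
        intro h
        have h3 := h1 z0 h
        refine absurd hpos (not_lt.mpr ?_)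
        calc u z0 + ((k z0 : ℝ) : EReal) ≤ ((β : ℝ) : EReal) + ((k z0 : ℝ) : EReal) := by gcongr
          _ ≤ _ := by
            rw [← EReal.coe_add, EReal.coe_le_coe_iff]
            simp only [hk]
            rw [h, max_self, Real.log_one]
            have hR1 : 1 ≤ R := hz1.trans hz2
            have hR2 : 0 ≤ δ * (R ^ 2 - 1) := mul_nonneg hδ.le (by nlinarith)
            linarith
      have hb2 : ‖z0‖ ≠ R := by
        intro h
        have h3 := h2 z0 h
        refine absurd hpos (not_lt.mpr ?_)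
        calc u z0 + ((k z0 : ℝ) : EReal)
            ≤ ((α * Real.log R + β : ℝ) : EReal) + ((k z0 : ℝ) : EReal) := by gcongr
          _ ≤ _ := by
            rw [← EReal.coe_add, EReal.coe_le_coe_iff]
            simp only [hk]
            have hR1 : 1 ≤ R := hz1.trans hz2
            rw [h, max_eq_left hR1]
            linarith
      have hlt1 : 1 < ‖z0‖ := lt_of_le_of_ne hz0.1 (Ne.symm hb1)
      have hlt2 : ‖z0‖ < R := lt_of_le_of_ne hz0.2 hb2
      -- the value at the maximum is real
      obtain ⟨c, hc⟩ : ∃ c : ℝ, u z0 = (c : EReal) := by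
        have hT := hu.1 z0 (hΩ z0 hz0.1 hz0.2)
        have hB : u z0 ≠ ⊥ := by
          intro h
          rw [h, EReal.bot_add] at hpos
          exact absurd hpos (by simp)
        exact ⟨(u z0).toReal, (EReal.coe_toReal hT.ne hB).symm⟩
      set r := min (‖z0‖ - 1) (R - ‖z0‖) / 2 with hr
      have hr0 : 0 < r := by
        have : 0 < min (‖z0‖ - 1) (R - ‖z0‖) := lt_min (by linarith) (by linarith)
        positivity
      have hr1 : r < ‖z0‖ - 1 := by
        have := min_le_left (‖z0‖ - 1) (R - ‖z0‖)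
        linarith
      have hr2 : r < R - ‖z0‖ := by
        have := min_le_right (‖z0‖ - 1) (R - ‖z0‖)
        linarith
      have hball : ∀ y ∈ closedBall z0 r, 1 ≤ ‖y‖ ∧ ‖y‖ ≤ R := by
        intro y hy
        rw [mem_closedBall, dist_eq_norm] at hy
        have h3 := norm_sub_norm_le z0 y
        have h4 := norm_sub_norm_le y z0
        rw [norm_sub_rev] at h3
        constructor <;> linarith
      have h5 := hu.2.2 z0 r hr0 (fun y hy => hΩ y (hball y hy).1 (hball y hy).2)
        (fun y => c + k z0 - k y) (by fun_prop) (fun y hy => by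
          have h6 := hmax (show y ∈ A from hball y (sphere_subset_closedBall hy))
          simp only [Set.mem_ofPred_eq] at h6
          rw [hc, ← EReal.coe_add] at h6
          exact ereal_aux h6)
      have h7 : Real.circleAverage (fun y => c + k z0 - k y) z0 r = c + k z0 - (k z0 + δ * r ^ 2) := by
        have e1 : Real.circleAverage (fun y => c + k z0 - k y) z0 r =
            Real.circleAverage (fun y => α * Real.log ‖y‖ +
              ((c + k z0 + β + δ * R ^ 2) + (-δ) * ‖y‖ ^ 2)) z0 r := by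
          refine Real.circleAverage_congr_sphere fun y hy => ?_
          rw [abs_of_pos hr0] at hy
          simp only [hk]
          rw [max_eq_left (hball y (sphere_subset_closedBall hy)).1]
          ring
        rw [e1, Real.circleAverage_fun_add (ci_log_mul α z0 r)
          (ci (by fun_prop) z0 r), Real.circleAverage_fun_add (ci continuous_const z0 r)
          (ci (by fun_prop) z0 r)]
        have e2 := Real.circleAverage_fun_smul (a := α) (f := fun z : ℂ => Real.log ‖z‖)
          (c := z0) (R := r)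
        have e3 := Real.circleAverage_fun_smul (a := -δ) (f := fun z : ℂ => ‖z‖ ^ 2)
          (c := z0) (R := r)
        simp only [smul_eq_mul] at e2 e3
        rw [e2, e3, avg_log_eq z0 hr0 (by linarith), avg_sq, Real.circleAverage_const]
        simp only [hk]
        rw [max_eq_left hz0.1]
        ring
      rw [hc, h7, EReal.coe_le_coe_iff] at h5
      have : 0 < δ * r ^ 2 := by positivity
      linarith
  have hT : u z ≠ ⊤ := (hu.1 z (hΩ z hz1 hz2)).ne
  by_cases hB : u z = ⊥
  · rw [hB]; exact bot_le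
  lift u z to ℝ using ⟨hT, hB⟩ with c hc
  rw [EReal.coe_le_coe_iff]
  have hkey : ∀ δ : ℝ, 0 < δ → c ≤ α * Real.log ‖z‖ + β + δ * (R ^ 2 - ‖z‖ ^ 2) := fun δ hδ =>
    EReal.coe_le_coe_iff.mp (key δ hδ)
  refine le_of_forall_pos_le_add fun ε hε => ?_
  have hRz : 0 ≤ R ^ 2 - ‖z‖ ^ 2 := by nlinarith [norm_nonneg z]
  have h9 := hkey (ε / (R ^ 2 - ‖z‖ ^ 2 + 1)) (by positivity)
  have h10 : ε / (R ^ 2 - ‖z‖ ^ 2 + 1) * (R ^ 2 - ‖z‖ ^ 2) ≤ ε := by
    rw [div_mul_eq_mul_div, div_le_iff₀ (by linarith)]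
    nlinarith
  linarith

/-! ### The extremal functions of the example -/

lemma le_of_eps {x : EReal} {a b : ℝ} (hx : x ≠ ⊤) (hb : 0 ≤ b)
    (h : ∀ ε : ℝ, 0 < ε → x ≤ ((a + ε * b : ℝ) : EReal)) : x ≤ ((a : ℝ) : EReal) := by
  by_cases hB : x = ⊥
  · rw [hB]; exact bot_le
  lift x to ℝ using ⟨hx, hB⟩ with c hc
  rw [EReal.coe_le_coe_iff]
  refine le_of_forall_pos_le_add fun ε hε => ?_
  have h9 := EReal.coe_le_coe_iff.mp (h (ε / (b + 1)) (by positivity))
  have h10 : ε / (b + 1) * b ≤ ε := by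
    rw [div_mul_eq_mul_div, div_le_iff₀ (by linarith)]
    nlinarith
  linarith

/-- the weight of the example -/
noncomputable def Q0 (z : ℂ) : ℝ := ‖z‖ ^ 2 / 2 - 2

lemma V_eq (z : ℂ) : V (closedBall 0 1) Q0 z = ((w 1 z : ℝ) : EReal) := by
  refine IsLUB.sSup_eq (IsGreatest.isLUB ⟨?_, ?_⟩)
  · refine ⟨fun z => ((w 1 z : ℝ) : EReal), ⟨w_sh le_rfl univ, 0, fun y => ?_⟩, fun y hy => ?_, rfl⟩
    · rw [EReal.coe_le_coe_iff]
      have h0 : 0 ≤ Real.posLog ‖y‖ := Real.posLog_nonneg
      rcases le_total ‖y‖ 1 with h | h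
      · rw [w_in h]; nlinarith [norm_nonneg y]
      · rw [w_out h]
        have h1 : Real.log ‖y‖ ≤ Real.posLog ‖y‖ := le_max_right _ _
        linarith
    · rw [mem_closedBall_zero_iff] at hy
      change ((w 1 y : ℝ) : EReal) ≤ _
      rw [w_in hy, Q0]
  · rintro t ⟨u, ⟨hu, C, hC⟩, hK, rfl⟩
    rcases le_or_gt ‖z‖ 1 with h | h
    · rw [w_in h]
      exact hK z (by rwa [mem_closedBall_zero_iff])
    · rw [w_out h.le]
      refine le_of_eps (b := Real.log ‖z‖) (hu.1 z (mem_univ z)).ne (Real.log_nonneg h.le)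
        fun ε hε => ?_
      set R := max ‖z‖ (Real.exp ((C + 3 / 2) / ε)) with hR
      have hzR : ‖z‖ ≤ R := le_max_left _ _
      have hR1 : 1 < R := h.trans_le hzR
      have hlogR : (C + 3 / 2) / ε ≤ Real.log R := by
        rw [Real.le_log_iff_exp_le (by linarith)]
        exact le_max_right _ _
      have h3 := comparison hu (R := R) (fun y _ _ => mem_univ y) (1 + ε) (-(3 / 2))
        (fun y hy => (hK y (by rw [mem_closedBall_zero_iff, hy])).trans (by
          rw [EReal.coe_le_coe_iff, Q0, hy]; norm_num))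
        (fun y hy => (hC y).trans (by
          rw [EReal.coe_le_coe_iff, hy]
          have h4 : Real.posLog R = Real.log R :=
            max_eq_right (Real.log_nonneg hR1.le)
          rw [h4]
          rw [div_le_iff₀ hε] at hlogR
          linarith)) z h.le hzR
      refine h3.trans ?_
      rw [EReal.coe_le_coe_iff]
      linarith

lemma U_eq (z : ℂ) (hz : z ∈ ball (0 : ℂ) (Real.exp 1)) :
    U (closedBall 0 1) Q0 (ball 0 (Real.exp 1)) z = ((w (3 / 2) z : ℝ) : EReal) := by
  refine IsLUB.sSup_eq (IsGreatest.isLUB ⟨?_, ?_⟩)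
  · refine ⟨fun z => ((w (3 / 2) z : ℝ) : EReal), w_sh (by norm_num) _, fun y hy => ?_,
      fun y hy => ?_, rfl⟩
    · rw [← EReal.coe_zero, EReal.coe_lt_coe_iff]
      rw [mem_ball_zero_iff] at hy
      rcases le_total ‖y‖ 1 with h | h
      · rw [w_in h]; nlinarith [norm_nonneg y]
      · rw [w_out h]
        have h1 : Real.log ‖y‖ < 1 := by
          rw [Real.log_lt_iff_lt_exp (by linarith)]
          exact hy
        linarith
    · rw [mem_closedBall_zero_iff] at hy
      change ((w (3 / 2) y : ℝ) : EReal) ≤ _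
      rw [w_in hy, Q0]
  · rintro t ⟨u, hu, hneg, hK, rfl⟩
    rcases le_or_gt ‖z‖ 1 with h | h
    · rw [w_in h]
      exact hK z (by rwa [mem_closedBall_zero_iff])
    · rw [w_out h.le]
      rw [mem_ball_zero_iff] at hz
      have hL0 : 0 < Real.log ‖z‖ := Real.log_pos h
      have hL1 : Real.log ‖z‖ < 1 := by
        rw [Real.log_lt_iff_lt_exp (by linarith)]
        exact hz
      refine le_of_eps (b := 3 / 2 * Real.log ‖z‖) (hu.1 z (mem_ball_zero_iff.mpr hz)).ne
        (by positivity) fun ε hε => ?_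
      set L := Real.log ‖z‖ with hL
      have hLinv : 1 < 1 / L := by rw [lt_div_iff₀ hL0]; linarith
      set η := min ε ((1 / L - 1) / 2) with hη
      have hη0 : 0 < η := lt_min hε (by linarith)
      have hη1 : η ≤ ε := min_le_left _ _
      have hη2 : η < 1 / L - 1 := by
        have : η ≤ (1 / L - 1) / 2 := min_le_right _ _
        linarith
      set t := 1 / (1 + η) with ht
      have ht0 : 0 < t := by positivity
      have ht1 : t < 1 := by
        rw [ht, div_lt_one (by linarith)]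
        linarith
      have htL : L < t := by
        rw [ht, lt_div_iff₀ (by linarith)]
        have h5 : η * L < (1 / L - 1) * L := mul_lt_mul_of_pos_right hη2 hL0
        have h6 : (1 / L - 1) * L = 1 - L := by field_simp
        linarith
      have hR : Real.log (Real.exp t) = t := Real.log_exp t
      have h3 := comparison hu (R := Real.exp t) (fun y _ hy => by
          rw [mem_ball_zero_iff]
          exact hy.trans_lt (Real.exp_lt_exp.mpr ht1)) (3 / 2 * (1 + η)) (-(3 / 2))
        (fun y hy => (hK y (by rw [mem_closedBall_zero_iff, hy])).trans (by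
          rw [EReal.coe_le_coe_iff, Q0, hy]; norm_num))
        (fun y hy => (hneg y (by
          rw [mem_ball_zero_iff, hy]
          exact Real.exp_lt_exp.mpr ht1)).le.trans (by
          rw [← EReal.coe_zero, EReal.coe_le_coe_iff, hR, ht]
          have : 3 / 2 * (1 + η) * (1 / (1 + η)) = 3 / 2 := by field_simp
          linarith)) z h.le (by
          rw [← Real.log_le_iff_le_exp (by linarith)]
          exact htL.le)
      refine h3.trans ?_
      rw [EReal.coe_le_coe_iff, ← hL]
      nlinarith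

lemma uscV (z : ℂ) : usc univ (V (closedBall 0 1) Q0) z = ((w 1 z : ℝ) : EReal) := by
  unfold usc
  rw [nhdsWithin_univ]
  have h : V (closedBall 0 1) Q0 = fun z => ((w 1 z : ℝ) : EReal) := funext V_eq
  rw [h]
  exact ((continuous_coe_real_ereal.comp (w_cont 1)).tendsto z).limsup_eq

lemma uscU (z : ℂ) (hz : z ∈ ball (0 : ℂ) (Real.exp 1)) :
    usc (ball 0 (Real.exp 1)) (U (closedBall 0 1) Q0 (ball 0 (Real.exp 1))) z =
      ((w (3 / 2) z : ℝ) : EReal) := by
  unfold usc
  have h : U (closedBall 0 1) Q0 (ball 0 (Real.exp 1)) =ᶠ[𝓝[ball 0 (Real.exp 1)] z]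
      fun z => ((w (3 / 2) z : ℝ) : EReal) := by
    filter_upwards [self_mem_nhdsWithin] with y hy
    exact U_eq y hy
  rw [limsup_congr h]
  have : (𝓝[ball 0 (Real.exp 1)] z).NeBot :=
    mem_closure_iff_nhdsWithin_neBot.mp (subset_closure hz)
  exact (((continuous_coe_real_ereal.comp (w_cont (3 / 2))).tendsto z).mono_left
    nhdsWithin_le_nhds).limsup_eq

/-! ### The disc is not polar; the large disc is hyperconvex -/

lemma not_polar : ¬ Polar (closedBall (0 : ℂ) 1) := by
  rintro ⟨u, hu, ⟨z1, hz1⟩, hE⟩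
  have hz1n : 1 < ‖z1‖ := by
    by_contra h
    push Not at h
    exact hz1 (hE z1 (by rwa [mem_closedBall_zero_iff]))
  have hr0 : 0 < ‖z1‖ := by linarith
  -- an upper bound on the circle
  obtain ⟨B, hB⟩ : ∃ B : ℝ, ∀ z ∈ sphere z1 ‖z1‖, u z ≤ ((B : ℝ) : EReal) := by
    obtain ⟨y, hy, hmax⟩ := (hu.2.1.mono (subset_univ (sphere z1 ‖z1‖))).exists_isMaxOn
      (NormedSpace.sphere_nonempty.mpr hr0.le) (isCompact_sphere _ _)
    have hyT := hu.1 y (mem_univ y)
    refine ⟨(u y).toReal, fun z hz => (hmax hz).trans ?_⟩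
    exact EReal.le_coe_toReal hyT.ne
  set g : ℂ → ℝ := fun z => max 0 (1 - ‖z‖) with hg
  have hgc : Continuous g := by fun_prop
  have hg0 : ∀ z, 0 ≤ g z := fun z => le_max_left _ _
  have havg : 0 < Real.circleAverage g z1 ‖z1‖ := by
    rw [Real.circleAverage_def, smul_eq_mul]
    refine mul_pos (by positivity) ?_
    have h0 : (0 : ℂ) ∈ sphere z1 |‖z1‖| := by
      rw [abs_of_pos hr0, mem_sphere, dist_eq_norm, zero_sub, norm_neg]
    rw [← image_circleMap_Ioc] at h0
    obtain ⟨θ, hθ, hθ0⟩ := h0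
    refine intervalIntegral.integral_pos (by positivity)
      ((hgc.comp (continuous_circleMap z1 ‖z1‖)).continuousOn) (fun x _ => hg0 _)
      ⟨θ, Ioc_subset_Icc_self hθ, ?_⟩
    rw [hθ0]
    simp [hg]
  -- majorants
  have hmaj : ∀ N : ℝ, 0 ≤ N → u z1 ≤ ((B - N * Real.circleAverage g z1 ‖z1‖ : ℝ) : EReal) := by
    intro N hN
    have h1 := hu.2.2 z1 ‖z1‖ hr0 (subset_univ _) (fun z => B + (-N) * g z) (by fun_prop)
      (fun z hz => by
        rcases le_or_gt ‖z‖ 1 with h | h
        · rw [hE z (by rwa [mem_closedBall_zero_iff])]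
          exact bot_le
        · have : g z = 0 := max_eq_left (by linarith)
          rw [this, mul_zero, add_zero]
          exact hB z hz)
    refine h1.trans (le_of_eq ?_)
    rw [Real.circleAverage_fun_add (ci continuous_const _ _) (ci (by fun_prop) _ _)]
    have e3 := Real.circleAverage_fun_smul (a := -N) (f := g) (c := z1) (R := ‖z1‖)
    simp only [smul_eq_mul] at e3
    rw [e3, Real.circleAverage_const]
    congr 1
    ring
  have hT : u z1 ≠ ⊤ := (hu.1 z1 (mem_univ _)).ne
  lift u z1 to ℝ using ⟨hT, hz1⟩ with c hc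
  have h2 := EReal.coe_le_coe_iff.mp
    (hmaj ((|B| + |c| + 1) / Real.circleAverage g z1 ‖z1‖) (by positivity))
  rw [div_mul_cancel₀ _ havg.ne'] at h2
  have h3 := neg_abs_le c
  have h4 := le_abs_self B
  linarith

lemma hyperconvex : BoundedHyperconvex (ball (0 : ℂ) (Real.exp 1)) := by
  refine ⟨isOpen_ball, ?_, isBounded_ball, fun z => ‖z‖ ^ 2 - Real.exp 1 ^ 2, by fun_prop, ?_, ?_, ?_⟩
  · exact (convex_ball _ _).isConnected (nonempty_ball.mpr (Real.exp_pos 1))
  · refine sh_of_submean (by fun_prop) fun a r hr => ?_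
    have h1 := Real.circleAverage_fun_add (f₁ := fun z : ℂ => ‖z‖ ^ 2)
      (f₂ := fun _ => -Real.exp 1 ^ 2) (c := a) (R := r) (ci (by fun_prop) a r)
      (ci continuous_const a r)
    rw [avg_sq, Real.circleAverage_const] at h1
    have h2 : (fun z : ℂ => ‖z‖ ^ 2 - Real.exp 1 ^ 2) = fun z => ‖z‖ ^ 2 + -Real.exp 1 ^ 2 := by
      funext z; ring
    rw [h2, h1]
    nlinarith [sq_nonneg r]
  · intro z hz
    rw [mem_ball_zero_iff] at hz
    nlinarith [norm_nonneg z]
  · intro c hc
    refine ⟨{z | ‖z‖ ^ 2 - Real.exp 1 ^ 2 ≤ c}, ?_, fun z hz => ?_, fun z _ hz => hz⟩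
    · refine Metric.isCompact_of_isClosed_isBounded
        (isClosed_le (by fun_prop) continuous_const) ?_
      refine (isBounded_ball (x := (0 : ℂ)) (r := Real.exp 1)).subset fun z hz => ?_
      simp only [Set.mem_ofPred_eq] at hz
      rw [mem_ball_zero_iff]
      have := Real.exp_pos 1
      nlinarith [norm_nonneg z]
    · simp only [Set.mem_ofPred_eq] at hz
      rw [mem_ball_zero_iff]
      have := Real.exp_pos 1
      nlinarith [norm_nonneg z]

/-! ### The Laplacians of the extremal functions -/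

lemma w_lip (α : ℝ) : ∃ C, LipschitzWith C (w α) := by
  refine ⟨Real.toNNReal (1 + |α|), LipschitzWith.of_dist_le_mul fun y z => ?_⟩
  rw [Real.dist_eq, Real.coe_toNNReal _ (by positivity)]
  have hm : |min ‖y‖ 1 - min ‖z‖ 1| ≤ dist y z := by
    have := (lipschitzWith_one_norm (E := ℂ)).min_const 1 |>.dist_le_mul y z
    rwa [NNReal.coe_one, one_mul, Real.dist_eq] at this
  have hM : |max ‖y‖ 1 - max ‖z‖ 1| ≤ dist y z := by
    have := (lipschitzWith_one_norm (E := ℂ)).max_const 1 |>.dist_le_mul y z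
    rwa [NNReal.coe_one, one_mul, Real.dist_eq] at this
  have hm0 : 0 ≤ min ‖y‖ 1 := le_min (norm_nonneg _) zero_le_one
  have hm0' : 0 ≤ min ‖z‖ 1 := le_min (norm_nonneg _) zero_le_one
  have hm1 : min ‖y‖ 1 ≤ 1 := min_le_right _ _
  have hm1' : min ‖z‖ 1 ≤ 1 := min_le_right _ _
  have hM1 : 1 ≤ max ‖y‖ 1 := le_max_right _ _
  have hM1' : 1 ≤ max ‖z‖ 1 := le_max_right _ _
  unfold w
  set m := min ‖y‖ 1
  set m' := min ‖z‖ 1
  set M := max ‖y‖ 1
  set M' := max ‖z‖ 1
  have h1 : |m ^ 2 / 2 - m' ^ 2 / 2| ≤ |m - m'| := by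
    have : m ^ 2 / 2 - m' ^ 2 / 2 = (m - m') * ((m + m') / 2) := by ring
    rw [this, abs_mul]
    have h2 : |(m + m') / 2| ≤ 1 := by
      rw [abs_le]; constructor <;> linarith
    calc |m - m'| * |(m + m') / 2| ≤ |m - m'| * 1 :=
          mul_le_mul_of_nonneg_left h2 (abs_nonneg _)
      _ = _ := mul_one _
  have hlog : ∀ x y : ℝ, 1 ≤ x → 1 ≤ y → Real.log x - Real.log y ≤ |x - y| := by
    intro x y hx hy
    rw [← Real.log_div (by linarith) (by linarith)]
    have h3 := Real.log_le_sub_one_of_pos (show 0 < x / y by positivity)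
    have h4 : x / y - 1 = (x - y) / y := by field_simp
    rw [h4] at h3
    refine h3.trans ?_
    rw [div_le_iff₀ (by linarith)]
    have h5 := le_abs_self (x - y)
    have h6 := abs_nonneg (x - y)
    nlinarith
  have h2 : |Real.log M - Real.log M'| ≤ |M - M'| := by
    rw [abs_sub_le_iff]
    refine ⟨hlog _ _ hM1 hM1', ?_⟩
    have := hlog _ _ hM1' hM1
    rwa [abs_sub_comm] at this
  calc |m ^ 2 / 2 - 2 + α * Real.log M - (m' ^ 2 / 2 - 2 + α * Real.log M')|
      = |(m ^ 2 / 2 - m' ^ 2 / 2) + α * (Real.log M - Real.log M')| := by ring_nf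
    _ ≤ |m ^ 2 / 2 - m' ^ 2 / 2| + |α * (Real.log M - Real.log M')| := abs_add_le _ _
    _ ≤ dist y z + |α| * dist y z := by
        rw [abs_mul]
        exact add_le_add (h1.trans hm) (mul_le_mul_of_nonneg_left (h2.trans hM) (abs_nonneg _))
    _ = _ := by ring

/-- the radial weight of the gradient of `w` -/
noncomputable def κ (α : ℝ) (z : ℂ) : ℝ := if ‖z‖ < 1 then 1 else α / ‖z‖ ^ 2

lemma lineDeriv_w (α : ℝ) {z : ℂ} (hz : ‖z‖ ≠ 1) (v : ℂ) :
    lineDeriv ℝ (w α) z v = κ α z * (z.re * v.re + z.im * v.im) := by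
  set p : ℝ → ℝ := fun t => (z.re + t * v.re) ^ 2 + (z.im + t * v.im) ^ 2 with hp
  have hpn : ∀ t : ℝ, ‖z + t • v‖ ^ 2 = p t := by
    intro t
    rw [Complex.sq_norm, Complex.normSq_apply]
    simp [hp]
    ring
  have hpd : HasDerivAt p (2 * (z.re * v.re + z.im * v.im)) 0 := by
    have h1 : HasDerivAt (fun t : ℝ => z.re + t * v.re) v.re 0 := by
      simpa using ((hasDerivAt_id (0 : ℝ)).mul_const v.re).const_add z.re
    have h2 : HasDerivAt (fun t : ℝ => z.im + t * v.im) v.im 0 := by
      simpa using ((hasDerivAt_id (0 : ℝ)).mul_const v.im).const_add z.im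
    have h3 := (h1.pow 2).add (h2.pow 2)
    refine h3.congr_deriv ?_
    simp
    ring
  have hcont : Continuous fun t : ℝ => ‖z + t • v‖ := by fun_prop
  have hc0 : Tendsto (fun t : ℝ => ‖z + t • v‖) (𝓝 0) (𝓝 ‖z‖) := by
    have := hcont.tendsto 0
    simpa using this
  have hp0 : p 0 = ‖z‖ ^ 2 := by rw [← hpn 0]; simp
  unfold lineDeriv κ
  rcases lt_or_gt_of_ne hz with h | h
  · rw [if_pos h, one_mul]
    have hev : (fun t : ℝ => w α (z + t • v)) =ᶠ[𝓝 0] fun t => p t / 2 - 2 := by
      filter_upwards [hc0.eventually (gt_mem_nhds h)] with t ht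
      rw [w_in ht.le, hpn]
    rw [hev.deriv_eq]
    have := (hpd.div_const 2).sub_const 2
    rw [this.deriv]
    ring
  · rw [if_neg (by linarith)]
    have hev : (fun t : ℝ => w α (z + t • v)) =ᶠ[𝓝 0] fun t => α / 2 * Real.log (p t) - 3 / 2 := by
      filter_upwards [hc0.eventually (lt_mem_nhds h)] with t ht
      rw [w_out ht.le, ← hpn, Real.log_pow]
      push_cast
      ring
    rw [hev.deriv_eq]
    have hne : p 0 ≠ 0 := by rw [hp0]; positivity
    have := ((hpd.log hne).const_mul (α / 2)).sub_const (3 / 2)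
    rw [this.deriv, hp0]
    ring

lemma lap_eq {φ : ℂ → ℝ} (hφ : ContDiff ℝ ∞ φ) (z : ℂ) :
    lap φ z = fderiv ℝ (fun w => fderiv ℝ φ w 1) z 1 +
      fderiv ℝ (fun w => fderiv ℝ φ w Complex.I) z Complex.I := by
  have hd : Differentiable ℝ φ := hφ.differentiable (by simp)
  have h1 : ∀ v : ℂ, (fun w => lineDeriv ℝ φ w v) = fun w => fderiv ℝ φ w v := fun v =>
    funext fun w => (hd w).lineDeriv_eq_fderiv
  have h2 : ∀ v : ℂ, Differentiable ℝ fun w => fderiv ℝ φ w v := fun v =>
    ((hφ.fderiv_right (m := ∞) (by simp)).clm_apply contDiff_const).differentiable (by simp)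
  unfold lap
  rw [h1, h1, (h2 1 z).lineDeriv_eq_fderiv, (h2 Complex.I z).lineDeriv_eq_fderiv]

lemma vol_sphere : ∀ᵐ z : ℂ, ‖z‖ ≠ 1 := by
  rw [ae_iff]
  have : {z : ℂ | ¬ ‖z‖ ≠ 1} = sphere 0 1 := by ext z; simp
  rw [this]
  exact Measure.addHaar_sphere volume 0 1

lemma κ_meas (α : ℝ) : Measurable (κ α) := by
  unfold κ
  refine Measurable.ite (measurableSet_lt measurable_norm measurable_const) measurable_const ?_
  exact measurable_const.div (measurable_norm.pow_const 2)

/-- the field whose integral gives the Laplacian -/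
noncomputable def F (α : ℝ) (φ : ℂ → ℝ) (z : ℂ) : ℝ := κ α z * fderiv ℝ φ z z

lemma F_bdd (α : ℝ) {φ : ℂ → ℝ} (hφ : ContDiff ℝ ∞ φ) (hc : HasCompactSupport φ) :
    ∃ C, ∀ z, |F α φ z| ≤ C := by
  obtain ⟨D, hD⟩ := (hφ.continuous_fderiv (by simp)).bounded_above_of_compact_support
    (hc.fderiv (𝕜 := ℝ))
  have hD0 : 0 ≤ D := (norm_nonneg _).trans (hD 0)
  refine ⟨(1 + |α|) * D, fun z => ?_⟩
  unfold F
  rw [abs_mul]
  have h1 : |fderiv ℝ φ z z| ≤ D * ‖z‖ :=
    ((fderiv ℝ φ z).le_opNorm z).trans (mul_le_mul_of_nonneg_right (hD z) (norm_nonneg _))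
  have h2 : |κ α z| * ‖z‖ ≤ 1 + |α| := by
    unfold κ
    split_ifs with h
    · rw [abs_one, one_mul]
      linarith [abs_nonneg α]
    · push Not at h
      rw [abs_div, abs_of_pos (show 0 < ‖z‖ ^ 2 by positivity), div_mul_eq_mul_div,
        div_le_iff₀ (by positivity)]
      have h3 : |α| * ‖z‖ ≤ |α| * ‖z‖ ^ 2 :=
        mul_le_mul_of_nonneg_left (by nlinarith) (abs_nonneg _)
      nlinarith [abs_nonneg α]
  calc |κ α z| * |fderiv ℝ φ z z| ≤ |κ α z| * (D * ‖z‖) :=
        mul_le_mul_of_nonneg_left h1 (abs_nonneg _)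
    _ = (|κ α z| * ‖z‖) * D := by ring
    _ ≤ _ := mul_le_mul_of_nonneg_right h2 hD0

lemma F_meas (α : ℝ) {φ : ℂ → ℝ} (hφ : ContDiff ℝ ∞ φ) : Measurable (F α φ) := by
  refine (κ_meas α).mul ?_
  have : Continuous fun z => fderiv ℝ φ z z :=
    (hφ.continuous_fderiv (by simp)).clm_apply continuous_id
  exact this.measurable

lemma green1 (α : ℝ) {φ : ℂ → ℝ} (hφ : ContDiff ℝ ∞ φ) (hc : HasCompactSupport φ) :
    ∫ z, w α z * lap φ z = -∫ z, F α φ z := by
  obtain ⟨C, hC⟩ := w_lip α
  have hg : ∀ v : ℂ, ContDiff ℝ ∞ fun z => fderiv ℝ φ z v := fun v =>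
    (hφ.fderiv_right (m := ∞) (by simp)).clm_apply contDiff_const
  have hgc : ∀ v : ℂ, HasCompactSupport fun z => fderiv ℝ φ z v := fun v =>
    hc.fderiv_apply (𝕜 := ℝ) v
  have hibp : ∀ v : ℂ, ∫ z, w α z * fderiv ℝ (fun w => fderiv ℝ φ w v) z v =
      -∫ z, lineDeriv ℝ (w α) z v * fderiv ℝ φ z v := by
    intro v
    obtain ⟨D, hD⟩ := ContDiff.lipschitzWith_of_hasCompactSupport (hgc v) (hg v) (by simp)
    have h1 := LipschitzWith.integral_lineDeriv_mul_eq (μ := volume) hC hD (hgc v) v
    rw [h1, ← integral_neg]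
    refine integral_congr_ae (Eventually.of_forall fun z => ?_)
    simp only
    rw [lineDeriv_neg, (((hg v).differentiable (by simp)) z).lineDeriv_eq_fderiv]
    ring
  have hint : ∀ v : ℂ, Integrable fun z => w α z * fderiv ℝ (fun w => fderiv ℝ φ w v) z v := by
    intro v
    refine Continuous.integrable_of_hasCompactSupport ?_ ?_
    · exact (w_cont α).mul (((hg v).continuous_fderiv (by simp)).clm_apply continuous_const)
    · exact ((hgc v).fderiv_apply (𝕜 := ℝ) v).mul_left
  have hcv : ∀ v : ℂ, (fun z => lineDeriv ℝ (w α) z v * fderiv ℝ φ z v) =ᵐ[volume]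
      fun z => κ α z * (z.re * v.re + z.im * v.im) * fderiv ℝ φ z v := by
    intro v
    filter_upwards [vol_sphere] with z hz
    rw [lineDeriv_w α hz v]
  have hint2 : ∀ v : ℂ, Integrable fun z => lineDeriv ℝ (w α) z v * fderiv ℝ φ z v := by
    intro v
    have h1 : Integrable fun z => fderiv ℝ φ z v :=
      (hg v).continuous.integrable_of_hasCompactSupport (hgc v)
    refine h1.bdd_mul (c := C * ‖v‖) (measurable_lineDeriv (w_cont α)).aestronglyMeasurable
      (Eventually.of_forall fun z => ?_)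
    exact norm_lineDeriv_le_of_lipschitz ℝ hC
  calc ∫ z, w α z * lap φ z
      = ∫ z, (w α z * fderiv ℝ (fun w => fderiv ℝ φ w 1) z 1 +
          w α z * fderiv ℝ (fun w => fderiv ℝ φ w Complex.I) z Complex.I) := by
        refine integral_congr_ae (Eventually.of_forall fun z => ?_)
        simp only
        rw [lap_eq hφ]
        ring
    _ = -∫ z, (lineDeriv ℝ (w α) z 1 * fderiv ℝ φ z 1 +
          lineDeriv ℝ (w α) z Complex.I * fderiv ℝ φ z Complex.I) := by
        rw [integral_add (hint 1) (hint Complex.I), hibp, hibp,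
          integral_add (hint2 1) (hint2 Complex.I)]
        ring
    _ = -∫ z, F α φ z := by
        congr 1
        refine integral_congr_ae ?_
        filter_upwards [hcv 1, hcv Complex.I] with z h1 h2
        rw [h1, h2]
        unfold F
        have h3 : fderiv ℝ φ z z = z.re * fderiv ℝ φ z 1 + z.im * fderiv ℝ φ z Complex.I := by
          have hz : z = z.re • (1 : ℂ) + z.im • Complex.I := by apply Complex.ext <;> simp
          calc fderiv ℝ φ z z = fderiv ℝ φ z (z.re • (1 : ℂ) + z.im • Complex.I) := by rw [← hz]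
            _ = _ := by rw [map_add, map_smul, map_smul]; simp
        rw [h3]
        simp
        ring

lemma polar_int (α : ℝ) {φ : ℂ → ℝ} (hφ : ContDiff ℝ ∞ φ) (hc : HasCompactSupport φ) (θ : ℝ) :
    ∫ r in Ioi (0 : ℝ), r * (F α φ (r * Complex.exp (θ * Complex.I)) +
      2 * (closedBall (0 : ℂ) 1).indicator φ (r * Complex.exp (θ * Complex.I))) =
      (1 - α) * φ (Complex.exp (θ * Complex.I)) := by
  set e := Complex.exp (θ * Complex.I) with he
  have hen : ‖e‖ = 1 := Complex.norm_exp_ofReal_mul_I θ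
  set ψ : ℝ → ℝ := fun r => φ (r * e) with hψ
  have hemb : ContDiff ℝ ∞ fun r : ℝ => (r : ℂ) * e :=
    (Complex.ofRealCLM.contDiff).mul contDiff_const
  have hψs : ContDiff ℝ ∞ ψ := hφ.comp hemb
  have hd : ∀ r : ℝ, HasDerivAt ψ (fderiv ℝ φ (r * e) e) r := by
    intro r
    have h1 : HasDerivAt (fun r : ℝ => (r : ℂ) * e) e r := by
      have := (Complex.ofRealCLM.hasDerivAt (x := r)).mul_const e
      simpa using this
    exact ((hφ.differentiable (by simp)) (r * e)).hasFDerivAt.comp_hasDerivAt r h1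
  have hψc : HasCompactSupport ψ := by
    obtain ⟨R, hR⟩ := hc.isBounded.subset_closedBall (0 : ℂ)
    refine HasCompactSupport.intro (isCompact_Icc (a := -R) (b := R)) fun r hr => ?_
    have : (r : ℂ) * e ∉ tsupport φ := by
      intro h
      have := hR h
      rw [mem_closedBall_zero_iff, norm_mul, hen, mul_one, Complex.norm_real, Real.norm_eq_abs] at this
      exact hr (abs_le.mp this)
    change φ ((r : ℂ) * e) = 0
    exact image_eq_zero_of_notMem_tsupport this
  have hcd : Continuous (deriv ψ) := hψs.continuous_deriv (by simp)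
  have hderiv : ∀ r, deriv ψ r = fderiv ℝ φ (r * e) e := fun r => (hd r).deriv
  have hlin : ∀ r : ℝ, fderiv ℝ φ (r * e) (r * e) = r * deriv ψ r := by
    intro r
    rw [hderiv, ← Complex.real_smul, map_smul, smul_eq_mul]
  have hnorm : ∀ r : ℝ, 0 < r → ‖(r : ℂ) * e‖ = r := by
    intro r hr
    rw [norm_mul, hen, mul_one, Complex.norm_real, Real.norm_eq_abs, abs_of_pos hr]
  -- inside
  have hin : ∀ r ∈ Ioo (0 : ℝ) 1, r * (F α φ (r * e) +
      2 * (closedBall (0 : ℂ) 1).indicator φ (r * e)) = r ^ 2 * deriv ψ r + 2 * r * ψ r := by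
    intro r hr
    have h1 := hnorm r hr.1
    rw [indicator_of_mem (by rw [mem_closedBall_zero_iff, h1]; exact hr.2.le)]
    unfold F κ
    rw [h1, if_pos hr.2, hlin]
    ring
  have hout : ∀ r ∈ Ioi (1 : ℝ), r * (F α φ (r * e) +
      2 * (closedBall (0 : ℂ) 1).indicator φ (r * e)) = α * deriv ψ r := by
    intro r hr
    have hr' : (1 : ℝ) < r := hr
    have h1 := hnorm r (by linarith)
    rw [indicator_of_notMem (by rw [mem_closedBall_zero_iff, h1]; linarith)]
    unfold F κ
    rw [h1, if_neg (by linarith), hlin]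
    have : r ≠ 0 := by linarith
    field_simp
    ring
  have hsplit : (Ioi (0 : ℝ)) = Ioc 0 1 ∪ Ioi 1 := (Ioc_union_Ioi_eq_Ioi zero_le_one).symm
  have i1 : IntegrableOn (fun r => r ^ 2 * deriv ψ r + 2 * r * ψ r) (Ioc 0 1) := by
    refine (Continuous.integrableOn_Icc ?_).mono_set Ioc_subset_Icc_self
    exact ((continuous_id.pow 2).mul hcd).add ((continuous_const.mul continuous_id).mul
      hψs.continuous)
  have i1' : IntegrableOn (fun r : ℝ => r * (F α φ (r * e) +
      2 * (closedBall (0 : ℂ) 1).indicator φ (r * e))) (Ioc 0 1) := by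
    rw [integrableOn_Ioc_iff_integrableOn_Ioo]
    refine IntegrableOn.congr_fun ?_ (fun r hr => (hin r hr).symm) measurableSet_Ioo
    rw [← integrableOn_Ioc_iff_integrableOn_Ioo]
    exact i1
  have i2 : IntegrableOn (fun r => α * deriv ψ r) (Ioi 1) :=
    ((hcd.integrable_of_hasCompactSupport hψc.deriv).const_mul α).integrableOn
  have i2' : IntegrableOn (fun r : ℝ => r * (F α φ (r * e) +
      2 * (closedBall (0 : ℂ) 1).indicator φ (r * e))) (Ioi 1) :=
    IntegrableOn.congr_fun i2 (fun r hr => (hout r hr).symm) measurableSet_Ioi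
  rw [hsplit, setIntegral_union (Ioc_disjoint_Ioi le_rfl) measurableSet_Ioi i1' i2',
    setIntegral_congr_fun measurableSet_Ioi hout, integral_Ioc_eq_integral_Ioo,
    setIntegral_congr_fun measurableSet_Ioo hin, ← integral_Ioc_eq_integral_Ioo,
    ← intervalIntegral.integral_of_le zero_le_one]
  have h3 : ∫ r in (0 : ℝ)..1, (r ^ 2 * deriv ψ r + 2 * r * ψ r) = ψ 1 := by
    have h4 : ∀ r ∈ uIcc (0 : ℝ) 1, HasDerivAt (fun r => r ^ 2 * ψ r)
        (r ^ 2 * deriv ψ r + 2 * r * ψ r) r := by
      intro r _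
      have h5 := (hasDerivAt_pow 2 r).mul (hd r)
      rw [← hderiv] at h5
      refine h5.congr_deriv ?_
      simp
      ring
    rw [intervalIntegral.integral_eq_sub_of_hasDerivAt h4]
    · simp
    · apply Continuous.intervalIntegrable
      exact ((continuous_id.pow 2).mul hcd).add ((continuous_const.mul continuous_id).mul
        hψs.continuous)
  rw [h3, integral_const_mul, HasCompactSupport.integral_Ioi_deriv_eq (hψs.of_le (by simp)) hψc 1]
  simp only [hψ]
  push_cast
  rw [one_mul]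
  ring

lemma green2 (α : ℝ) {φ : ℂ → ℝ} (hφ : ContDiff ℝ ∞ φ) (hc : HasCompactSupport φ) :
    (∫ z, F α φ z) + 2 * (∫ z in closedBall 0 1, φ z) =
      (1 - α) * ∫ θ in Ioo (-Real.pi) Real.pi, φ (Complex.exp (θ * Complex.I)) := by
  obtain ⟨C, hC⟩ := F_bdd α hφ hc
  obtain ⟨D, hD⟩ := hφ.continuous.bounded_above_of_compact_support hc
  have hC0 : 0 ≤ C := (abs_nonneg _).trans (hC 0)
  have hD0 : 0 ≤ D := (norm_nonneg _).trans (hD 0)
  have hball : MeasurableSet (closedBall (0 : ℂ) 1) := isClosed_closedBall.measurableSet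
  set G : ℂ → ℝ := fun z => F α φ z + 2 * (closedBall (0 : ℂ) 1).indicator φ z with hG
  have hGm : Measurable G := (F_meas α hφ).add
    (measurable_const.mul (hφ.continuous.measurable.indicator hball))
  have hGb : ∀ z, |G z| ≤ C + 2 * D := by
    intro z
    refine (abs_add_le _ _).trans (add_le_add (hC z) ?_)
    rw [abs_mul, abs_two]
    refine mul_le_mul_of_nonneg_left ?_ (by norm_num)
    by_cases hz : z ∈ closedBall (0 : ℂ) 1
    · rw [indicator_of_mem hz]; exact hD z
    · rw [indicator_of_notMem hz, abs_zero]; exact hD0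
  obtain ⟨R0, hR0⟩ := hc.isBounded.subset_closedBall (0 : ℂ)
  set R := max R0 1 with hR
  have hGz : ∀ z : ℂ, R < ‖z‖ → G z = 0 := by
    intro z hz
    have h1 : z ∉ tsupport φ := by
      intro h
      have := hR0 h
      rw [mem_closedBall_zero_iff] at this
      have := le_max_left R0 1
      linarith
    have h2 : z ∉ closedBall (0 : ℂ) 1 := by
      rw [mem_closedBall_zero_iff]
      have := le_max_right R0 1
      linarith
    simp only [hG]
    rw [indicator_of_notMem h2]
    unfold F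
    rw [fderiv_of_notMem_tsupport (𝕜 := ℝ) h1]
    simp
  have hGint : Integrable G := by
    rw [← integrableOn_univ]
    have h1 : IntegrableOn G (closedBall 0 R) :=
      Measure.integrableOn_of_bounded (M := C + 2 * D) measure_closedBall_lt_top.ne
        hGm.aestronglyMeasurable (Eventually.of_forall fun z => hGb z)
    refine h1.of_forall_sdiff_eq_zero MeasurableSet.univ fun z hz => hGz z ?_
    have := hz.2
    rw [mem_closedBall_zero_iff] at this
    linarith
  have hind : Integrable ((closedBall (0 : ℂ) 1).indicator φ) :=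
    (hφ.continuous.integrable_of_hasCompactSupport hc).indicator hball
  have hFint : Integrable (F α φ) := by
    have := hGint.sub (hind.const_mul 2)
    refine this.congr (Eventually.of_forall fun z => ?_)
    simp [hG]
  have e1 : (∫ z, F α φ z) + 2 * (∫ z in closedBall 0 1, φ z) = ∫ z, G z := by
    simp only [hG]
    rw [integral_add hFint (hind.const_mul 2), integral_const_mul, integral_indicator hball]
  rw [e1, ← Complex.integral_comp_polarCoord_symm, polarCoord_target]
  have hps : ∀ p : ℝ × ℝ, Complex.polarCoord.symm p = p.1 * Complex.exp (p.2 * Complex.I) := by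
    intro p
    rw [Complex.polarCoord_symm_apply, Complex.exp_mul_I]
    push_cast
    ring
  simp_rw [hps, smul_eq_mul]
  have hm : Measurable fun p : ℝ × ℝ => p.1 * G (p.1 * Complex.exp (p.2 * Complex.I)) := by
    refine measurable_fst.mul (hGm.comp ?_)
    have : Continuous fun p : ℝ × ℝ => (p.1 : ℂ) * Complex.exp (p.2 * Complex.I) := by fun_prop
    exact this.measurable
  have hI : IntegrableOn (fun p : ℝ × ℝ => p.1 * G (p.1 * Complex.exp (p.2 * Complex.I)))
      (Ioi 0 ×ˢ Ioo (-Real.pi) Real.pi) := by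
    have h1 : IntegrableOn (fun p : ℝ × ℝ => p.1 * G (p.1 * Complex.exp (p.2 * Complex.I)))
        (Ioc 0 R ×ˢ Ioo (-Real.pi) Real.pi) := by
      refine Measure.integrableOn_of_bounded (M := R * (C + 2 * D)) ?_
        hm.aestronglyMeasurable ?_
      · refine ne_of_lt ?_
        refine (measure_mono (Set.prod_mono Ioc_subset_Icc_self Ioo_subset_Icc_self)).trans_lt ?_
        exact (isCompact_Icc.prod isCompact_Icc).measure_lt_top
      · refine (ae_restrict_iff' (measurableSet_Ioc.prod measurableSet_Ioo)).mpr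
          (Eventually.of_forall fun p hp => ?_)
        rw [Real.norm_eq_abs, abs_mul, abs_of_pos hp.1.1]
        exact mul_le_mul hp.1.2 (hGb _) (abs_nonneg _) (hp.1.1.le.trans hp.1.2)
    refine h1.of_forall_sdiff_eq_zero (measurableSet_Ioi.prod measurableSet_Ioo) fun p hp => ?_
    have hp1 : 0 < p.1 := hp.1.1
    have hp2 : R < p.1 := by
      by_contra h
      push Not at h
      exact hp.2 ⟨⟨hp1, h⟩, hp.1.2⟩
    rw [hGz, mul_zero]
    rw [norm_mul, Complex.norm_exp_ofReal_mul_I, mul_one, Complex.norm_real, Real.norm_eq_abs,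
      abs_of_pos hp1]
    exact hp2
  rw [Measure.volume_eq_prod, ← setIntegral_prod_swap, setIntegral_prod]
  · simp only [Prod.fst_swap, Prod.snd_swap]
    rw [← integral_const_mul]
    refine setIntegral_congr_fun measurableSet_Ioo fun θ _ => ?_
    exact polar_int α hφ hc θ
  · exact hI.swap

/-! ### The two measures -/

/-- twice Lebesgue measure on the disc plus `(α - 1)` times arc length on the circle -/
noncomputable def mα (α : ℝ) : Measure ℂ :=
  ENNReal.ofReal 2 • volume.restrict (closedBall 0 1) +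
    ENNReal.ofReal (α - 1) • Measure.map (fun θ : ℝ => Complex.exp (θ * Complex.I))
      (volume.restrict (Ioo (-Real.pi) Real.pi))

lemma exp_meas : Measurable fun θ : ℝ => Complex.exp (θ * Complex.I) := by
  have : Continuous fun θ : ℝ => Complex.exp (θ * Complex.I) := by fun_prop
  exact this.measurable

lemma mα_integral {α : ℝ} (hα : 1 ≤ α) {φ : ℂ → ℝ} (hφ : ContDiff ℝ ∞ φ)
    (hc : HasCompactSupport φ) : ∫ z, w α z * lap φ z = ∫ z, φ z ∂(mα α) := by
  have hb : Integrable φ (volume.restrict (closedBall 0 1)) :=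
    (hφ.continuous.integrable_of_hasCompactSupport hc).integrableOn
  have hm : Integrable φ (Measure.map (fun θ : ℝ => Complex.exp (θ * Complex.I))
      (volume.restrict (Ioo (-Real.pi) Real.pi))) := by
    obtain ⟨D, hD⟩ := hφ.continuous.bounded_above_of_compact_support hc
    have : IsFiniteMeasure (Measure.map (fun θ : ℝ => Complex.exp (θ * Complex.I))
      (volume.restrict (Ioo (-Real.pi) Real.pi))) := by
      have : IsFiniteMeasure (volume.restrict (Ioo (-Real.pi) Real.pi)) :=
        ⟨by rw [Measure.restrict_apply_univ]; exact measure_Ioo_lt_top⟩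
      infer_instance
    exact Integrable.of_bound hφ.continuous.aestronglyMeasurable D (Eventually.of_forall hD)
  unfold mα
  rw [integral_add_measure (hb.smul_measure ENNReal.ofReal_ne_top)
    (hm.smul_measure ENNReal.ofReal_ne_top), integral_smul_measure, integral_smul_measure,
    ENNReal.toReal_ofReal (by norm_num), ENNReal.toReal_ofReal (by linarith),
    integral_map exp_meas.aemeasurable hφ.continuous.aestronglyMeasurable, green1 α hφ hc]
  have := green2 α hφ hc
  simp only [smul_eq_mul]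
  linarith

lemma mα_compl (α : ℝ) : mα α (closedBall 0 1)ᶜ = 0 := by
  unfold mα
  rw [Measure.add_apply, Measure.smul_apply, Measure.smul_apply,
    Measure.restrict_apply isClosed_closedBall.measurableSet.compl, compl_inter_self,
    measure_empty, Measure.map_apply exp_meas isClosed_closedBall.measurableSet.compl]
  have : (fun θ : ℝ => Complex.exp (θ * Complex.I)) ⁻¹' (closedBall 0 1)ᶜ = ∅ := by
    ext θ
    simp [Complex.norm_exp_ofReal_mul_I]
  rw [this]
  simp

lemma mα_univ (α : ℝ) : mα α univ < ⊤ := by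
  unfold mα
  rw [Measure.add_apply, Measure.smul_apply, Measure.smul_apply, Measure.restrict_apply_univ,
    Measure.map_apply exp_meas MeasurableSet.univ, preimage_univ, Measure.restrict_apply_univ]
  refine ENNReal.add_lt_top.mpr ⟨?_, ?_⟩
  · exact ENNReal.mul_lt_top ENNReal.ofReal_lt_top measure_closedBall_lt_top
  · exact ENNReal.mul_lt_top ENNReal.ofReal_lt_top measure_Ioo_lt_top

lemma mα_support (α : ℝ) : (mα α).support = closedBall 0 1 := by
  apply Subset.antisymm
  · exact Measure.support_subset_of_isClosed isClosed_closedBall (mα_compl α)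
  · intro x hx
    rw [Measure.mem_support_iff_forall]
    intro W hW
    have h1 : x ∈ closure (ball (0 : ℂ) 1) := by
      rwa [closure_ball _ one_ne_zero]
    obtain ⟨y, hy1, hy2⟩ := mem_closure_iff_nhds.mp h1 (interior W) (interior_mem_nhds.mpr hW)
    have h2 : 0 < volume (interior W ∩ ball (0 : ℂ) 1) :=
      (isOpen_interior.inter isOpen_ball).measure_pos volume ⟨y, hy1, hy2⟩
    have h3 : mα α (interior W ∩ ball (0 : ℂ) 1) ≤ mα α W :=
      measure_mono (inter_subset_left.trans interior_subset)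
    refine lt_of_lt_of_le ?_ h3
    unfold mα
    rw [Measure.add_apply, Measure.smul_apply]
    refine lt_of_lt_of_le ?_ le_self_add
    rw [Measure.restrict_apply (isOpen_interior.inter isOpen_ball).measurableSet,
      inter_eq_left.mpr (inter_subset_right.trans ball_subset_closedBall)]
    exact ENNReal.mul_pos (by simp) h2.ne'

lemma ddcV : IsDdc univ (usc univ (V (closedBall 0 1) Q0)) (mα 1) := by
  refine ⟨fun K _ _ => (measure_mono (subset_univ K)).trans_lt (mα_univ 1), by simp,
    fun φ hφ hc _ => ?_⟩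
  simp_rw [uscV, EReal.toReal_coe]
  exact mα_integral le_rfl hφ hc

lemma ddcU : IsDdc (ball 0 (Real.exp 1))
    (usc (ball 0 (Real.exp 1)) (U (closedBall 0 1) Q0 (ball 0 (Real.exp 1)))) (mα (3 / 2)) := by
  refine ⟨fun K _ _ => (measure_mono (subset_univ K)).trans_lt (mα_univ _), ?_,
    fun φ hφ hc hs => ?_⟩
  · refine measure_mono_null (compl_subset_compl.mpr ?_) (mα_compl (3 / 2))
    exact closedBall_subset_ball (Real.one_lt_exp_iff.mpr one_pos)
  · rw [← mα_integral (by norm_num) hφ hc]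
    refine integral_congr_ae (Eventually.of_forall fun z => ?_)
    simp only
    by_cases hz : z ∈ ball (0 : ℂ) (Real.exp 1)
    · rw [uscU z hz, EReal.toReal_coe]
    · have h1 : z ∉ tsupport φ := fun h => hz (hs h)
      have h2 : ∀ v : ℂ, fderiv ℝ (fun w => fderiv ℝ φ w v) z = 0 := by
        intro v
        refine fderiv_of_notMem_tsupport (𝕜 := ℝ) fun h => h1 ?_
        exact (tsupport_fderiv_subset ℝ) (closure_mono (fun y hy => by
          intro h0
          exact hy (by simp [h0])) h)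
      rw [lap_eq hφ, h2, h2]
      simp

lemma not_ac : ¬ mα (3 / 2) ≪ mα 1 := by
  intro h
  have h1 : mα 1 (sphere 0 1) = 0 := by
    unfold mα
    rw [sub_self, ENNReal.ofReal_zero, zero_smul, add_zero, Measure.smul_apply]
    have : volume.restrict (closedBall (0 : ℂ) 1) (sphere 0 1) = 0 :=
      le_antisymm ((Measure.restrict_apply_le _ _).trans (Measure.addHaar_sphere volume 0 1).le)
        zero_le
    rw [this]
    simp
  have h2 := h h1
  unfold mα at h2
  rw [Measure.add_apply, Measure.smul_apply, Measure.smul_apply,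
    Measure.map_apply exp_meas isClosed_sphere.measurableSet] at h2
  have h3 : (fun θ : ℝ => Complex.exp (θ * Complex.I)) ⁻¹' (sphere 0 1) = univ := by
    ext θ
    simp [Complex.norm_exp_ofReal_mul_I]
  rw [h3, Measure.restrict_apply_univ, Real.volume_Ioo] at h2
  have h4 := (add_eq_zero.mp h2).2
  rw [smul_eq_mul, mul_eq_zero] at h4
  rcases h4 with h4 | h4
  · rw [ENNReal.ofReal_eq_zero] at h4
    norm_num at h4
  · rw [ENNReal.ofReal_eq_zero] at h4
    linarith [Real.pi_pos]

/-- **Negative answer to Q1** (a counterexample in dimension one): a bounded hyperconvex domain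
`Ω ⊂ ℂ`, a compact set `K ⊂ Ω` and a (continuous) weight `Q` on `K` for which the measures
`μ = dd^c V*_{K,Q}` and `ν = dd^c U*_{K,Q,Ω}` have the same support, but `ν` is not absolutely
continuous with respect to `μ`. -/
theorem result : ∃ (Ω K : Set ℂ) (Q : ℂ → ℝ) (μ ν : Measure ℂ),
    BoundedHyperconvex Ω ∧ IsCompact K ∧ K ⊆ Ω ∧ IsWeight K Q ∧
    IsDdc univ (usc univ (V K Q)) μ ∧ IsDdc Ω (usc Ω (U K Q Ω)) ν ∧
    μ.support = ν.support ∧ ¬ ν ≪ μ := by
  refine ⟨ball 0 (Real.exp 1), closedBall 0 1, Q0, mα 1, mα (3 / 2), hyperconvex,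
    isCompact_closedBall _ _, ?_, ⟨?_, ?_, ?_⟩, ddcV, ddcU, ?_, not_ac⟩
  · exact closedBall_subset_ball (Real.one_lt_exp_iff.mpr one_pos)
  · have : Continuous Q0 := by unfold Q0; fun_prop
    exact this.lowerSemicontinuous.lowerSemicontinuousOn _
  · intro z hz
    rw [mem_closedBall_zero_iff] at hz
    unfold Q0
    nlinarith [norm_nonneg z]
  · have : {z : ℂ | z ∈ closedBall (0 : ℂ) 1 ∧ Q0 z < 0} = closedBall 0 1 := by
      ext z
      simp only [mem_closedBall_zero_iff, Set.mem_ofPred_eq, and_iff_left_iff_imp]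
      intro hz
      unfold Q0
      nlinarith [norm_nonneg z]
    rw [this]
    exact not_polar
  · rw [mα_support, mα_support]

end Pool.Agent.Results.MP_3df006_an.CircleMass
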